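import Pool.Agent.Y171.CE.Stm

/-!
Project CE (job 6763): the walk without rare steps has small support.
-/

set_option autoImplicit false

namespace Pool.Agent.Y138.CE

open Pool.Agent.Y171.CE Finset

/-- a lower bound for the distance to uniform by the mass of a set -/
theorem l1_ge {G : Type} [Fintype G] [DecidableEq G] (f : G → ℝ) (hf : ∑ x, f x = 1)
    (hG : (Fintype.card G : ℝ) ≠ 0) (E : Finset G) :
    2 * (∑ x ∈ E, f x - (E.card : ℝ) / Fintype.card G) ≤ l1 f := by
  unfold l1
  have h0 : ∑ x : G, (f x - 1 / (Fintype.card G : ℝ)) = 0 := by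
    rw [sum_sub_distrib, hf, sum_const, card_univ, nsmul_eq_mul, mul_one_div_cancel hG, sub_self]
  have h1 : ∑ x ∈ E, (f x - 1 / (Fintype.card G : ℝ)) = ∑ x ∈ E, f x - (E.card : ℝ) / Fintype.card G := by
    rw [sum_sub_distrib, sum_const, nsmul_eq_mul, mul_one_div]
  have h2 := sum_add_sum_compl E (fun x => f x - 1 / (Fintype.card G : ℝ))
  have h3 := sum_add_sum_compl E (fun x => |f x - 1 / (Fintype.card G : ℝ)|)
  have h4 : ∑ x ∈ E, (f x - 1 / (Fintype.card G : ℝ)) ≤ ∑ x ∈ E, |f x - 1 / (Fintype.card G : ℝ)| :=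
    sum_le_sum fun x _ => le_abs_self _
  have h5 : ∑ x ∈ Eᶜ, -(f x - 1 / (Fintype.card G : ℝ)) ≤ ∑ x ∈ Eᶜ, |f x - 1 / (Fintype.card G : ℝ)| :=
    sum_le_sum fun x _ => neg_le_abs _
  rw [sum_neg_distrib] at h5
  rw [h0] at h2
  rw [← h3, ← h1]
  linarith

/-- the number of points of the support of the measure of a list -/
theorem card_supp {F : Type} [Field F] [Fintype F] [DecidableEq F] (L : AddSubgroup (Fin 2 → F))
    (l : List (SL2 F)) :
    (univ.filter fun y : Gp F => mL L l y ≠ 0).card ≤ Nat.card (US L l) := by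
  classical
  have h : ∀ y ∈ univ.filter (fun y : Gp F => mL L l y ≠ 0), y.m = l.prod ∧ y.v ∈ US L l := by
    intro y hy
    rw [mem_filter] at hy
    by_contra hcon
    exact hy.2 (by unfold mL; rw [if_neg hcon])
  rw [Nat.card_eq_fintype_card, ← card_univ]
  refine card_le_card_of_injOn (fun y => if hy : y.v ∈ US L l then ⟨y.v, hy⟩ else 0)
    (fun _ _ => mem_coe.2 (mem_univ _)) ?_
  intro y hy z hz hyz
  have hy' := h y (mem_coe.1 hy)
  have hz' := h z (mem_coe.1 hz)
  simp only [dif_pos hy'.2, dif_pos hz'.2, Subtype.mk.injEq] at hyz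
  exact Gp.ext hyz (hy'.1.trans hz'.1.symm)

theorem slow : S_NIL → S_MASS → S_POW → S_UPPER → S_SLOW := by
  intro hnil hmass hpow hupper p _ F _ _ _ _ x I b hI hb j ρ g hρ hjρ t ht
  classical
  set L := lampL (p := p) x I b with hL
  obtain ⟨hm0, hm1, -⟩ := hmass F L
  have hp0 : (0 : ℝ) < p := by exact_mod_cast (Fact.out : p.Prime).pos
  have hN : Fintype.card (NilT p) = p ^ 2 := hnil p
  set s : NilT p ⊕ Fin j → SL2 F := Sum.elim (fun N : NilT p => st x N) g with hs
  set ω : NilT p ⊕ Fin j → ℝ := Sum.elim (fun _ => (1 - j * ρ) / (p : ℝ) ^ 2) (fun _ => ρ) with hω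
  have hω0 : ∀ i, 0 ≤ ω i := by
    rintro (i | i)
    · exact div_nonneg (by linarith) (by positivity)
    · exact hρ
  have hω1 : ∑ i, ω i = 1 := by
    rw [Fintype.sum_sum_type]
    simp only [hω, Sum.elim_inl, Sum.elim_inr, sum_const, card_univ, hN, nsmul_eq_mul, Fintype.card_fin]
    push_cast
    field_simp
    ring
  have hν := hpow F L (NilT p ⊕ Fin j) s ω t ht
  have hmu : muR (p := p) L x ρ g = mix L s ω := rfl
  rw [hmu, hν]
  set ν : Gp F → ℝ := fun y => ∑ h : Fin t → NilT p ⊕ Fin j,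
    (∏ i : Fin t, ω (h i)) * mL L (List.ofFn (fun i => s (h i))) y with hνdef
  have hG : (Fintype.card (Gp F) : ℝ) ≠ 0 := by
    have : 0 < Fintype.card (Gp F) := Fintype.card_pos_iff.2 ⟨1⟩
    exact_mod_cast this.ne'
  have hν1 : ∑ y, ν y = 1 := by
    simp only [hνdef]
    rw [sum_comm]
    simp_rw [← mul_sum, hm1, mul_one]
    rw [← Fintype.sum_pow, hω1, one_pow]
  set E : Finset (Gp F) := univ.filter fun y => ∃ h' : Fin t → NilT p,
    mL L (List.ofFn (fun i => st x (h' i))) y ≠ 0 with hE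
  have hEcard : E.card ≤ p ^ (3 * t + 2 * (I * b)) := by
    have h1 : E ⊆ univ.biUnion fun h' : Fin t → NilT p =>
        univ.filter fun y : Gp F => mL L (List.ofFn (fun i => st x (h' i))) y ≠ 0 := by
      intro y hy
      rw [hE, mem_filter] at hy
      obtain ⟨h', hh⟩ := hy.2
      exact mem_biUnion.2 ⟨h', mem_univ _, mem_filter.2 ⟨mem_univ _, hh⟩⟩
    calc E.card ≤ _ := card_le_card h1
      _ ≤ ∑ h' : Fin t → NilT p, (univ.filter fun y : Gp F =>
            mL L (List.ofFn (fun i => st x (h' i))) y ≠ 0).card := card_biUnion_le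
      _ ≤ ∑ _h' : Fin t → NilT p, p ^ (2 * (I * b) + t) := by
          refine sum_le_sum fun h' _ => (card_supp L _).trans ?_
          have h2 := hupper p F x I b hI hb (List.ofFn h')
          rw [List.length_ofFn, List.map_ofFn] at h2
          exact h2
      _ = p ^ (3 * t + 2 * (I * b)) := by
          rw [sum_const, card_univ, Fintype.card_pi, prod_const, card_univ, Fintype.card_fin, hN,
            smul_eq_mul, ← pow_mul, ← pow_add]
          congr 1
          ring
  have hνE : (1 - j * ρ) ^ t ≤ ∑ y ∈ E, ν y := by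
    simp only [hνdef]
    rw [sum_comm]
    set emb : (Fin t → NilT p) ↪ (Fin t → NilT p ⊕ Fin j) :=
      ⟨fun (h : Fin t → NilT p) (i : Fin t) => Sum.inl (h i), by
        intro a c h
        funext i
        have := congrFun h i
        exact Sum.inl_injective this⟩ with hemb
    have hterm : ∀ h : Fin t → NilT p ⊕ Fin j, 0 ≤ ∑ y ∈ E,
        (∏ i : Fin t, ω (h i)) * mL L (List.ofFn (fun i => s (h i))) y := fun h =>
      sum_nonneg fun y _ => mul_nonneg (prod_nonneg fun i _ => hω0 _) (hm0 _ _)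
    have h1 : ∑ h ∈ (univ : Finset (Fin t → NilT p)).map emb, ∑ y ∈ E,
        (∏ i : Fin t, ω (h i)) * mL L (List.ofFn (fun i => s (h i))) y ≤ ∑ h : Fin t → NilT p ⊕ Fin j, ∑ y ∈ E,
        (∏ i : Fin t, ω (h i)) * mL L (List.ofFn (fun i => s (h i))) y :=
      sum_le_sum_of_subset_of_nonneg (subset_univ _) fun h _ _ => hterm h
    refine le_trans (le_of_eq ?_) h1
    rw [sum_map]
    have h2 : ∀ h : Fin t → NilT p, ∑ y ∈ E,
        (∏ i : Fin t, ω (emb h i)) * mL L (List.ofFn (fun i => s (emb h i))) y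
        = ((1 - j * ρ) / (p : ℝ) ^ 2) ^ t := by
      intro h
      rw [← mul_sum]
      have h3 : ∏ i : Fin t, ω (emb h i) = ((1 - j * ρ) / (p : ℝ) ^ 2) ^ t := by
        simp [hω, hemb, div_pow]
      have h4 : (List.ofFn fun i => s (emb h i)) = List.ofFn fun i => st x (h i) := rfl
      have h5 : ∑ y ∈ E, mL L (List.ofFn fun i => st x (h i)) y = 1 := by
        rw [← hm1 (List.ofFn fun i => st x (h i))]
        refine sum_subset (subset_univ _) fun y _ hy => ?_
        by_contra hcon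
        exact hy (mem_filter.2 ⟨mem_univ _, h, hcon⟩)
      rw [h3, h4, h5, mul_one]
    simp_rw [h2]
    rw [sum_const, card_univ, Fintype.card_pi, prod_const, card_univ, Fintype.card_fin, hN,
      nsmul_eq_mul]
    push_cast
    rw [← mul_pow, mul_div_cancel₀ _ (by positivity)]
  have hmain := l1_ge ν hν1 hG E
  have hGpos : (0 : ℝ) < Fintype.card (Gp F) := lt_of_le_of_ne (by positivity) (Ne.symm hG)
  have h6 : (E.card : ℝ) / Fintype.card (Gp F) ≤ (p : ℝ) ^ (3 * t + 2 * (I * b)) / Fintype.card (Gp F) := by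
    gcongr
    exact_mod_cast hEcard
  linarith

end Pool.Agent.Y138.CE
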